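import Pool.Agent.W175.GF.Stm

set_option autoImplicit false

/-!
Project GF (helper175), task GF-RG (helper54): global bound for `1/Γ`.
-/

namespace Pool.Agent.W54.GF

open Complex Pool.Agent.W175.GF

lemma norm_log_le {z : ℂ} (hz : 1 ≤ ‖z‖) : ‖log z‖ ≤ Real.log ‖z‖ + Real.pi := by
  have h1 : ‖log z‖ ≤ |(log z).re| + |(log z).im| := norm_le_abs_re_add_abs_im _
  rw [log_re, log_im, abs_of_nonneg (Real.log_nonneg hz)] at h1
  have h2 := abs_arg_le_pi z
  linarith

lemma norm_sin_le (z : ℂ) : ‖sin z‖ ≤ Real.exp ‖z‖ := by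
  have h1 : sin z = (exp (-z * I) - exp (z * I)) * I / 2 := rfl
  have h2 : ‖exp (-z * I)‖ ≤ Real.exp ‖z‖ := by
    refine (norm_exp_le_exp_norm _).trans ?_
    rw [norm_mul, norm_neg, norm_I, mul_one]
  have h3 : ‖exp (z * I)‖ ≤ Real.exp ‖z‖ := by
    refine (norm_exp_le_exp_norm _).trans ?_
    rw [norm_mul, norm_I, mul_one]
  rw [h1, norm_div, norm_mul, norm_I, mul_one]
  have h4 : ‖(2 : ℂ)‖ = 2 := by norm_num
  rw [h4, div_le_iff₀ (by norm_num)]
  have := norm_sub_le (exp (-z * I)) (exp (z * I))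
  linarith

theorem rg (h : S_STIR) : S_RG := by
  have hpi := Real.pi_pos
  have hpi4 := Real.pi_lt_four
  have hpi3 := Real.pi_gt_three
  obtain ⟨C₁, hC⟩ := h (Real.pi / 4) (by positivity) (by linarith)
  -- compact part
  obtain ⟨M, hM⟩ := (isCompact_closedBall (0 : ℂ) 2).exists_bound_of_continuousOn
    (f := fun s => (Gamma s)⁻¹) differentiable_one_div_Gamma.continuous.continuousOn
  set C : ℝ := 30 + |C₁| * 2 + |M| with hCdef
  have hC1 := abs_nonneg C₁
  have hM1 := abs_nonneg M
  have hC1le := le_abs_self C₁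
  have hMle := le_abs_self M
  refine ⟨C, fun w => ?_⟩
  set L := Real.log (‖w‖ + 2) with hL
  have hw0 := norm_nonneg w
  by_cases hw : ‖w‖ ≤ 2
  · have h1 := hM w (by simpa using hw)
    have h2 : 0 ≤ L := Real.log_nonneg (by linarith)
    have h3 : (1 : ℝ) ≤ Real.exp (C * ‖w‖ * L) := Real.one_le_exp (by positivity)
    calc ‖(Gamma w)⁻¹‖ ≤ M := h1
      _ ≤ C * 1 := by rw [mul_one]; linarith
      _ ≤ C * Real.exp (C * ‖w‖ * L) := mul_le_mul_of_nonneg_left h3 (by positivity)
  · push Not at hw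
    have hL1 : 1 ≤ L := by
      rw [hL, Real.le_log_iff_exp_le (by linarith)]
      have := Real.exp_one_lt_d9
      linarith
    suffices hmain : ‖(Gamma w)⁻¹‖ ≤ Real.exp (C * ‖w‖ * L) by
      refine hmain.trans ?_
      exact le_mul_of_one_le_left (Real.exp_pos _).le (by linarith)
    -- general bound from Stirling
    have hst : ∀ z : ℂ, 2 ≤ ‖z‖ → ‖z‖ ≤ ‖w‖ + 1 → |arg z| ≤ Real.pi - Real.pi / 4 →
        |Real.log ‖Gamma z‖| ≤ (10 * ‖w‖ + |C₁| * ‖w‖) * L := by
      intro z hz1 hz2 hz3
      have h1 := hC z hz1 hz3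
      have h2 : Real.log ‖z‖ ≤ L := Real.log_le_log (by linarith) (by linarith)
      have h3 : 0 ≤ Real.log ‖z‖ := Real.log_nonneg (by linarith)
      have h4 : |(z * log z - z).re| ≤ ‖z‖ * (L + Real.pi + 1) := by
        refine (abs_re_le_norm _).trans ?_
        refine (norm_sub_le _ _).trans ?_
        rw [norm_mul]
        have := norm_log_le (z := z) (by linarith)
        have h5 : ‖z‖ * ‖log z‖ ≤ ‖z‖ * (L + Real.pi) :=
          mul_le_mul_of_nonneg_left (by linarith) (by linarith)
        linarith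
      have h5 : ‖z‖ * (L + Real.pi + 1) ≤ (3 / 2 * ‖w‖) * (6 * L) := by
        apply mul_le_mul _ _ (by positivity) (by positivity)
        · linarith
        · linarith
      have h6 : C₁ * Real.log ‖z‖ ≤ |C₁| * L := by
        calc C₁ * Real.log ‖z‖ ≤ |C₁| * Real.log ‖z‖ := mul_le_mul_of_nonneg_right hC1le h3
          _ ≤ |C₁| * L := mul_le_mul_of_nonneg_left h2 hC1
      have h7 : |C₁| * L ≤ |C₁| * ‖w‖ * L := by
        rw [mul_right_comm]
        exact le_mul_of_one_le_right (by positivity) (by linarith)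
      have h8 : |Real.log ‖Gamma z‖| ≤ |Real.log ‖Gamma z‖ - (z * log z - z).re| +
          |(z * log z - z).re| := by
        have := abs_add_le (Real.log ‖Gamma z‖ - (z * log z - z).re) ((z * log z - z).re)
        rwa [sub_add_cancel] at this
      have h9 : 0 ≤ ‖w‖ * L := by positivity
      nlinarith
    by_cases harg : |arg w| ≤ Real.pi - Real.pi / 4
    · by_cases hG : Gamma w = 0
      · rw [hG, inv_zero, norm_zero]
        exact (Real.exp_pos _).le
      have h1 := hst w hw.le (by linarith) harg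
      rw [norm_inv, ← Real.exp_log (norm_pos_iff.2 hG), ← Real.exp_neg, Real.exp_le_exp]
      have h2 := neg_abs_le (Real.log ‖Gamma w‖)
      have h9 : 0 ≤ ‖w‖ * L := by positivity
      have h10 : 0 ≤ |C₁| * (‖w‖ * L) := by positivity
      have h11 : 0 ≤ |M| * (‖w‖ * L) := by positivity
      rw [hCdef]
      nlinarith
    · push Not at harg
      by_cases hG : Gamma w = 0
      · rw [hG, inv_zero, norm_zero]
        exact (Real.exp_pos _).le
      have hre : w.re < 0 := by
        by_contra hcon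
        push Not at hcon
        have := abs_arg_le_pi_div_two_iff.2 hcon
        linarith
      have hG1 : Gamma (1 - w) ≠ 0 := by
        apply Gamma_ne_zero_of_re_pos
        rw [sub_re, one_re]
        linarith
      have hrefl := Gamma_mul_Gamma_one_sub w
      have hsin : sin (Real.pi * w) ≠ 0 := by
        intro h0
        rw [h0, div_zero] at hrefl
        exact (mul_ne_zero hG hG1) hrefl
      have hinv : (Gamma w)⁻¹ = Gamma (1 - w) * sin (Real.pi * w) / Real.pi := by
        have hpc : (Real.pi : ℂ) ≠ 0 := by exact_mod_cast hpi.ne'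
        rw [eq_div_iff hsin] at hrefl
        rw [eq_div_iff hpc, inv_mul_eq_iff_eq_mul₀ hG]
        linear_combination -hrefl
      have hz1 : 2 ≤ ‖1 - w‖ := by
        have e1 : ‖w‖ ^ 2 ≤ ‖1 - w‖ ^ 2 := by
          rw [← normSq_eq_norm_sq, ← normSq_eq_norm_sq, normSq_apply, normSq_apply]
          simp only [sub_re, one_re, sub_im, one_im]
          nlinarith
        have := abs_le_of_sq_le_sq' e1 (norm_nonneg _)
        linarith [this.2]
      have hz2 : ‖1 - w‖ ≤ ‖w‖ + 1 := by
        have := norm_sub_le (1 : ℂ) w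
        rw [norm_one] at this
        linarith
      have hz3 : |arg (1 - w)| ≤ Real.pi - Real.pi / 4 := by
        have : |arg (1 - w)| ≤ Real.pi / 2 := by
          rw [abs_arg_le_pi_div_two_iff, sub_re, one_re]
          linarith
        linarith
      have h1 := hst (1 - w) hz1 hz2 hz3
      have h2 : ‖Gamma (1 - w)‖ ≤ Real.exp ((10 * ‖w‖ + |C₁| * ‖w‖) * L) := by
        rw [← Real.exp_log (norm_pos_iff.2 hG1), Real.exp_le_exp]
        exact (le_abs_self _).trans h1
      have h3 : ‖sin (Real.pi * w)‖ ≤ Real.exp (4 * ‖w‖ * L) := by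
        refine (norm_sin_le _).trans ?_
        rw [Real.exp_le_exp, norm_mul, norm_real, Real.norm_eq_abs, abs_of_pos hpi]
        calc Real.pi * ‖w‖ ≤ 4 * ‖w‖ := mul_le_mul_of_nonneg_right hpi4.le hw0
          _ ≤ 4 * ‖w‖ * L := le_mul_of_one_le_right (by positivity) hL1
      rw [hinv, norm_div, norm_mul, norm_real, Real.norm_eq_abs, abs_of_pos hpi]
      calc ‖Gamma (1 - w)‖ * ‖sin (Real.pi * w)‖ / Real.pi
          ≤ ‖Gamma (1 - w)‖ * ‖sin (Real.pi * w)‖ := div_le_self (by positivity) (by linarith)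
        _ ≤ Real.exp ((10 * ‖w‖ + |C₁| * ‖w‖) * L) * Real.exp (4 * ‖w‖ * L) :=
            mul_le_mul h2 h3 (norm_nonneg _) (Real.exp_pos _).le
        _ = Real.exp ((10 * ‖w‖ + |C₁| * ‖w‖) * L + 4 * ‖w‖ * L) := (Real.exp_add _ _).symm
        _ ≤ Real.exp (C * ‖w‖ * L) := by
            rw [Real.exp_le_exp, hCdef]
            have h9 : 0 ≤ ‖w‖ * L := by positivity
            have h10 : 0 ≤ |C₁| * (‖w‖ * L) := by positivity
            have h11 : 0 ≤ |M| * (‖w‖ * L) := by positivity
            nlinarith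

end Pool.Agent.W54.GF
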